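import Pool.Agent.Lib.MP_abd978_an.Interfaces

/-!
Project ABD, module ALT (helper98): a matrix alternative.
-/

set_option autoImplicit false

open MeasureTheory Metric Set Filter Topology ContDiff
open scoped Gradient RealInnerProductSpace

namespace Pool.Agent.Lib.MP_abd978_an.H98

theorem alt : AltStatement := by
  intro N M hM
  by_contra hno
  push Not at hno
  -- the linear map
  let T : (Fin (N + 1) → ℝ) →ₗ[ℝ] (Fin (N + 1) → ℝ) :=
    { toFun := fun m i => ∑ j, M i j * m j
      map_add' := by
        intro x y; funext i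
        simp only [Pi.add_apply, mul_add, Finset.sum_add_distrib]
      map_smul' := by
        intro c x; funext i
        simp only [Pi.smul_apply, smul_eq_mul, RingHom.id_apply, Finset.mul_sum]
        refine Finset.sum_congr rfl fun j _ => by ring }
  have hT : ∀ m i, T m i = ∑ j, M i j * m j := fun m i => rfl
  have hTc : Continuous T := T.continuous_of_finiteDimensional
  have hS1 : IsCompact (T '' stdSimplex ℝ (Fin (N + 1))) :=
    (isCompact_stdSimplex ℝ (Fin (N + 1))).image hTc
  have hS2 : Convex ℝ (T '' stdSimplex ℝ (Fin (N + 1))) :=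
    (convex_stdSimplex ℝ (Fin (N + 1))).linear_image T
  have hP1 : IsClosed {z : Fin (N + 1) → ℝ | ∀ i, 0 ≤ z i} := by
    have : {z : Fin (N + 1) → ℝ | ∀ i, 0 ≤ z i} = ⋂ i, {z | 0 ≤ z i} := by
      ext z; simp
    rw [this]
    exact isClosed_iInter fun i => isClosed_le continuous_const (continuous_apply i)
  have hP2 : Convex ℝ {z : Fin (N + 1) → ℝ | ∀ i, 0 ≤ z i} := by
    intro x hx y hy a b ha hb _ i
    have h1 := hx i
    have h2 := hy i
    simp only [Pi.add_apply, Pi.smul_apply, smul_eq_mul]
    positivity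
  have hdis : Disjoint (T '' stdSimplex ℝ (Fin (N + 1))) {z : Fin (N + 1) → ℝ | ∀ i, 0 ≤ z i} := by
    rw [Set.disjoint_left]
    rintro z ⟨m, hm, rfl⟩ hz
    obtain ⟨i, hi⟩ := hno m hm.1 hm.2
    have := hz i
    rw [hT] at this
    linarith
  obtain ⟨f, u, v, h1, h2, h3⟩ := geometric_hahn_banach_compact_closed hS2 hS1 hP2 hP1 hdis
  have hv0 : v < 0 := by
    have := h3 0 (by simp)
    simpa using this
  have hneg : ∀ m ∈ stdSimplex ℝ (Fin (N + 1)), f (T m) < 0 := fun m hm =>
    lt_trans (h1 _ ⟨m, hm, rfl⟩) (lt_trans h2 hv0)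
  let l : Fin (N + 1) → ℝ := fun i => f (Pi.single i 1)
  have hfl : ∀ z : Fin (N + 1) → ℝ, f z = ∑ i, l i * z i := by
    intro z
    have hz : z = ∑ i, z i • (Pi.single i (1 : ℝ) : Fin (N + 1) → ℝ) := by
      funext j
      simp [Finset.sum_apply, Pi.single_apply]
    conv_lhs => rw [hz]
    rw [map_sum]
    refine Finset.sum_congr rfl fun i _ => ?_
    rw [map_smul, smul_eq_mul, mul_comm]
  have hl : ∀ i, 0 ≤ l i := by
    intro i
    by_contra hcon
    push Not at hcon
    have h4 := h3 ((v / l i + 1) • Pi.single i (1 : ℝ)) (by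
      intro j
      have : 0 ≤ v / l i + 1 := by
        have := div_pos_of_neg_of_neg hv0 hcon
        linarith
      simp only [Pi.smul_apply, smul_eq_mul]
      refine mul_nonneg this ?_
      by_cases hij : j = i
      · subst hij; simp
      · simp [hij])
    rw [map_smul, smul_eq_mul] at h4
    change v < (v / l i + 1) * l i at h4
    rw [add_mul, div_mul_cancel₀ _ (ne_of_lt hcon)] at h4
    linarith
  have hs : 0 < ∑ i, l i := by
    rcases (Finset.sum_nonneg fun i (_ : i ∈ Finset.univ) => hl i).lt_or_eq with h | h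
    · exact h
    · exfalso
      have h5 : ∀ i, l i = 0 := fun i =>
        (Finset.sum_eq_zero_iff_of_nonneg fun i _ => hl i).1 h.symm i (Finset.mem_univ i)
      have h6 := hneg (Pi.single 0 1) (single_mem_stdSimplex ℝ 0)
      rw [hfl] at h6
      simp [h5] at h6
  have hm : (fun i => l i / ∑ i, l i) ∈ stdSimplex ℝ (Fin (N + 1)) := by
    refine ⟨fun i => div_nonneg (hl i) hs.le, ?_⟩
    rw [← Finset.sum_div, div_self hs.ne']
  have h7 := hneg _ hm
  rw [hfl] at h7
  have h8 : ∑ i, l i * T (fun i => l i / ∑ i, l i) i = (∑ i, ∑ j, l i * l j * M i j) / ∑ i, l i := by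
    rw [Finset.sum_div]
    refine Finset.sum_congr rfl fun i _ => ?_
    rw [hT, Finset.mul_sum, Finset.sum_div]
    refine Finset.sum_congr rfl fun j _ => ?_
    ring
  rw [h8] at h7
  exact absurd h7 (not_lt.2 (div_nonneg (hM l hl) hs.le))

end Pool.Agent.Lib.MP_abd978_an.H98
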