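import Pool.Agent.Lib.MP_abd978_an.Interfaces

/-!
Project ABD, module MINTY (helper98): monotone operators, variational inequality.
-/

set_option autoImplicit false

open MeasureTheory Metric Set Filter Topology ContDiff
open scoped Gradient RealInnerProductSpace

namespace Pool.Agent.Lib.MP_abd978_an.H98

lemma minty_fin (hA : AltStatement) {X : Type} [NormedAddCommGroup X] [NormedSpace ℝ X] (K : Set X)
    (F : X → X →L[ℝ] ℝ) (hconv : Convex ℝ K) (hmono : ∀ x y, 0 ≤ (F x - F y) (x - y))
    (N : ℕ) (y : Fin (N + 1) → X) (hy : ∀ i, y i ∈ K) :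
    ∃ x ∈ K, ∀ i, 0 ≤ F (y i) (y i - x) := by
  obtain ⟨m, hm0, hm1, hm⟩ := hA N (fun i j => F (y i) (y i - y j)) (by
    intro l hl
    have h1 : ∑ i, ∑ j, l i * l j * F (y i) (y i - y j) =
        ∑ i, ∑ j, l i * l j * F (y j) (y j - y i) := by
      rw [Finset.sum_comm]
      refine Finset.sum_congr rfl fun i _ => Finset.sum_congr rfl fun j _ => by ring
    have h2 : 0 ≤ ∑ i, ∑ j, l i * l j * (F (y i) (y i - y j) + F (y j) (y j - y i)) := by
      refine Finset.sum_nonneg fun i _ => Finset.sum_nonneg fun j _ => ?_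
      refine mul_nonneg (mul_nonneg (hl i) (hl j)) ?_
      have h3 := hmono (y i) (y j)
      have h4 : (F (y i) - F (y j)) (y i - y j) = F (y i) (y i - y j) + F (y j) (y j - y i) := by
        rw [sub_apply, sub_eq_add_neg, ← map_neg, neg_sub]
      rw [← h4]; exact h3
    have h5 : ∑ i, ∑ j, l i * l j * (F (y i) (y i - y j) + F (y j) (y j - y i)) =
        ∑ i, ∑ j, l i * l j * F (y i) (y i - y j) + ∑ i, ∑ j, l i * l j * F (y j) (y j - y i) := by
      rw [← Finset.sum_add_distrib]
      refine Finset.sum_congr rfl fun i _ => ?_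
      rw [← Finset.sum_add_distrib]
      refine Finset.sum_congr rfl fun j _ => by ring
    rw [h5, ← h1] at h2
    linarith)
  refine ⟨∑ j, m j • y j, hconv.sum_mem (fun i _ => hm0 i) hm1 (fun i _ => hy i), fun i => ?_⟩
  have h1 := hm i
  have h2 : F (y i) (y i - ∑ j, m j • y j) = ∑ j, F (y i) (y i - y j) * m j := by
    have h3 : y i - ∑ j, m j • y j = ∑ j, m j • (y i - y j) := by
      simp only [smul_sub]
      rw [Finset.sum_sub_distrib, ← Finset.sum_smul, hm1, one_smul]
    rw [h3, map_sum]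
    refine Finset.sum_congr rfl fun j _ => ?_
    rw [map_smul, smul_eq_mul, mul_comm]
  rw [h2]; exact h1

theorem minty (hA : AltStatement) : MintyStatement := by
  intro X _ _ K F hne hconv hfip hmono hcont
  obtain ⟨x, hxK, hx⟩ := hfip (↥K) (fun y => {x | 0 ≤ F y ((y : X) - x)}) (by
    intro y
    refine ⟨isClosed_le continuous_const ((F y).continuous.comp (continuous_const.sub continuous_id)), ?_⟩
    intro a ha b hb s t hs ht hst
    simp only [Set.mem_ofPred_eq] at ha hb ⊢
    have h1 : (y : X) - (s • a + t • b) = s • ((y : X) - a) + t • ((y : X) - b) := by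
      simp only [smul_sub]
      have : (y : X) = s • (y : X) + t • (y : X) := by rw [← add_smul, hst, one_smul]
      nth_rewrite 1 [this]
      abel
    rw [h1, map_add, map_smul, map_smul, smul_eq_mul, smul_eq_mul]
    positivity) (by
    intro t
    rcases t.eq_empty_or_nonempty with ht | ht
    · subst ht
      obtain ⟨x, hx⟩ := hne
      exact ⟨x, hx, by simp⟩
    · obtain ⟨N, hN⟩ : ∃ N, t.card = N + 1 := ⟨t.card - 1, by have := ht.card_pos; omega⟩
      let e := (t.equivFinOfCardEq hN).symm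
      obtain ⟨x, hxK, hx⟩ := minty_fin hA K F hconv hmono N (fun i => ((e i : ↥K) : X)) (fun i => (e i : ↥K).2)
      refine ⟨x, hxK, ?_⟩
      simp only [Set.mem_iInter]
      intro y hy
      have h1 := hx ((t.equivFinOfCardEq hN) ⟨y, hy⟩)
      simp only [e, Equiv.symm_apply_apply] at h1
      exact h1)
  refine ⟨x, hxK, fun y hy => ?_⟩
  refine ge_of_tendsto (hcont x y) ?_
  have h1 : ∀ᶠ t : ℝ in 𝓝[>] 0, t ∈ Set.Ioo (0 : ℝ) 1 := Ioo_mem_nhdsGT one_pos
  filter_upwards [h1] with t ht
  have h2 : x + t • (y - x) ∈ K := by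
    have := hconv hxK hy (by linarith [ht.2] : (0 : ℝ) ≤ 1 - t) ht.1.le (by ring)
    convert this using 1
    rw [smul_sub, sub_smul, one_smul]; abel
  have h3 := Set.mem_iInter.1 hx ⟨_, h2⟩
  simp only [Set.mem_ofPred_eq, add_sub_cancel_left] at h3
  rw [map_smul, smul_eq_mul] at h3
  exact nonneg_of_mul_nonneg_right h3 ht.1

end Pool.Agent.Lib.MP_abd978_an.H98
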