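import Pool.Agent.Lib.MP_abd978_an.Interfaces

/-!
Project ABD, module NEST (helper98): closed convex bounded sets of `L^p` have the intersection
property.
-/

set_option autoImplicit false

open MeasureTheory Metric Set Filter Topology ContDiff
open scoped Gradient RealInnerProductSpace

namespace Pool.Agent.Lib.MP_abd978_an.H98

/-- uniform convexity, written with the exponent `p` -/
def UC (X : Type) [NormedAddCommGroup X] [NormedSpace ℝ X] (p : ℝ) : Prop :=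
  ∀ ε : ℝ, 0 < ε → ∃ C : ℝ, 0 < C ∧ ∀ x y : X,
    ‖x - y‖ ^ p ≤ ε * (‖x‖ ^ p + ‖y‖ ^ p) +
      C * ((‖x‖ ^ p + ‖y‖ ^ p) / 2 - ‖(1 / 2 : ℝ) • (x + y)‖ ^ p)

theorem fip_of_uc {X : Type} [NormedAddCommGroup X] [NormedSpace ℝ X] [CompleteSpace X] {p : ℝ}
    (hp : 1 < p) (hX : UC X p) (K : Set X) (hc : IsClosed K) (hconv : Convex ℝ K)
    (hb : Bornology.IsBounded K) : Fip K := by
  intro ι S hS hfin
  have hp0 : 0 < p := by linarith
  obtain ⟨B, hB0, hB⟩ : ∃ B : ℝ, 0 < B ∧ ∀ x ∈ K, ‖x‖ ≤ B := hb.exists_pos_norm_le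
  let Kt : Finset ι → Set X := fun t => K ∩ ⋂ i ∈ t, S i
  have hKtK : ∀ t, Kt t ⊆ K := fun t x hx => hx.1
  have hKt_conv : ∀ t, Convex ℝ (Kt t) := fun t =>
    hconv.inter (convex_iInter fun i => convex_iInter fun _ => (hS i).2)
  have hKt_anti : ∀ t t', t ⊆ t' → Kt t' ⊆ Kt t := by
    intro t t' htt x hx
    refine ⟨hx.1, ?_⟩
    have h1 := hx.2
    simp only [Set.mem_iInter] at h1 ⊢
    exact fun i hi => h1 i (htt hi)
  let d : Finset ι → ℝ := fun t => sInf ((fun x => ‖x‖ ^ p) '' Kt t)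
  have hbb : ∀ t, BddBelow ((fun x : X => ‖x‖ ^ p) '' Kt t) := by
    intro t
    refine ⟨0, ?_⟩
    rintro _ ⟨x, _, rfl⟩
    exact Real.rpow_nonneg (norm_nonneg _) p
  have hd_le : ∀ t, ∀ x ∈ Kt t, d t ≤ ‖x‖ ^ p := fun t x hx => csInf_le (hbb t) ⟨x, hx, rfl⟩
  have hdB : BddAbove (Set.range d) := by
    refine ⟨B ^ p, ?_⟩
    rintro _ ⟨t, rfl⟩
    obtain ⟨x, hx⟩ := hfin t
    exact (hd_le t x hx).trans (Real.rpow_le_rpow (norm_nonneg _) (hB x hx.1) hp0.le)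
  set D := ⨆ t, d t with hD
  have hdD : ∀ t, d t ≤ D := fun t => le_ciSup hdB t
  have hD0 : 0 ≤ D := by
    refine le_trans ?_ (hdD ∅)
    refine le_csInf ((hfin ∅).image _) ?_
    rintro _ ⟨x, _, rfl⟩
    exact Real.rpow_nonneg (norm_nonneg _) p
  let δ : ℕ → ℝ := fun k => 1 / ((k : ℝ) + 1)
  have hδ0 : ∀ k, 0 < δ k := fun k => Nat.one_div_pos_of_nat
  have hδ1 : ∀ k, δ k ≤ 1 := by
    intro k
    simp only [δ]
    rw [div_le_one (by positivity)]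
    have : (0 : ℝ) ≤ k := Nat.cast_nonneg k
    linarith
  have hδa : ∀ k l, k ≤ l → δ l ≤ δ k := fun k l hkl => one_div_le_one_div_of_le (by positivity) (by
    have : (k : ℝ) ≤ l := by exact_mod_cast hkl
    linarith)
  have hex1 : ∀ k, ∃ t, D - δ k < d t := fun k => exists_lt_of_lt_ciSup (by linarith [hδ0 k])
  choose t ht using hex1
  have hex2 : ∀ (s : Finset ι) (k : ℕ), ∃ x ∈ Kt s, ‖x‖ ^ p < D + δ k := by
    intro s k
    have h1 : sInf ((fun x : X => ‖x‖ ^ p) '' Kt s) < D + δ k := lt_of_le_of_lt (hdD s) (by linarith [hδ0 k])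
    obtain ⟨_, ⟨x, hx, rfl⟩, h2⟩ := exists_lt_of_csInf_lt ((hfin s).image _) h1
    exact ⟨x, hx, h2⟩
  -- the main estimate
  have key : ∀ r : ℝ, 0 < r → ∃ N : ℕ, ∀ x ∈ Kt (t N), ∀ y ∈ Kt (t N), ‖x‖ ^ p ≤ D + δ N →
      ‖y‖ ^ p ≤ D + δ N → ‖x - y‖ < r := by
    intro r hr
    have hrp : 0 < r ^ p := Real.rpow_pos_of_pos hr p
    obtain ⟨C, hC0, hC⟩ := hX (r ^ p / (8 * (D + 1))) (by positivity)
    obtain ⟨N, hN⟩ := exists_nat_one_div_lt (show 0 < r ^ p / (8 * C) by positivity)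
    refine ⟨N, fun x hx y hy hx1 hy1 => ?_⟩
    have h1 := hC x y
    have hmid : (1 / 2 : ℝ) • (x + y) ∈ Kt (t N) := by
      have := hKt_conv (t N) hx hy (by norm_num : (0 : ℝ) ≤ 1 / 2) (by norm_num : (0 : ℝ) ≤ 1 / 2)
        (by norm_num)
      rwa [← smul_add] at this
    have h2 := hd_le (t N) _ hmid
    have h3 := ht N
    have hδN : δ N < r ^ p / (8 * C) := hN
    have h4 : r ^ p / (8 * (D + 1)) * (‖x‖ ^ p + ‖y‖ ^ p) ≤ r ^ p / 4 := by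
      have h5 : ‖x‖ ^ p + ‖y‖ ^ p ≤ 2 * (D + 1) := by linarith [hδ1 N]
      calc r ^ p / (8 * (D + 1)) * (‖x‖ ^ p + ‖y‖ ^ p) ≤ r ^ p / (8 * (D + 1)) * (2 * (D + 1)) :=
            mul_le_mul_of_nonneg_left h5 (by positivity)
        _ = r ^ p / 4 := by field_simp; ring
    have h6 : C * ((‖x‖ ^ p + ‖y‖ ^ p) / 2 - ‖(1 / 2 : ℝ) • (x + y)‖ ^ p) ≤ r ^ p / 4 := by
      have h7 : (‖x‖ ^ p + ‖y‖ ^ p) / 2 - ‖(1 / 2 : ℝ) • (x + y)‖ ^ p ≤ 2 * (r ^ p / (8 * C)) := by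
        linarith
      calc C * ((‖x‖ ^ p + ‖y‖ ^ p) / 2 - ‖(1 / 2 : ℝ) • (x + y)‖ ^ p)
          ≤ C * (2 * (r ^ p / (8 * C))) := mul_le_mul_of_nonneg_left h7 hC0.le
        _ = r ^ p / 4 := by field_simp; ring
    have h8 : ‖x - y‖ ^ p < r ^ p := by linarith
    exact (Real.rpow_lt_rpow_iff (norm_nonneg _) hr.le hp0).1 h8
  -- the sequence
  classical
  let T : ℕ → Finset ι := fun k => (Finset.range (k + 1)).biUnion t
  have hTt : ∀ k l, k ≤ l → t k ⊆ T l := by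
    intro k l hkl i hi
    simp only [T, Finset.mem_biUnion, Finset.mem_range]
    exact ⟨k, by omega, hi⟩
  choose x hxK hx using fun k => hex2 (T k) k
  have hcau : CauchySeq x := by
    rw [Metric.cauchySeq_iff]
    intro r hr
    obtain ⟨N, hN⟩ := key r hr
    refine ⟨N, fun k hk l hl => ?_⟩
    rw [dist_eq_norm]
    refine hN _ (hKt_anti _ _ (hTt N k hk) (hxK k)) _ (hKt_anti _ _ (hTt N l hl) (hxK l)) ?_ ?_
    · linarith [hx k, hδa N k hk]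
    · linarith [hx l, hδa N l hl]
  obtain ⟨x₀, hx₀⟩ := cauchySeq_tendsto_of_complete hcau
  refine ⟨x₀, hc.mem_of_tendsto hx₀ (Eventually.of_forall fun k => (hxK k).1), ?_⟩
  rw [Set.mem_iInter]
  intro i
  rw [← (hS i).1.closure_eq, Metric.mem_closure_iff]
  intro r hr
  obtain ⟨N, hN⟩ := key (r / 2) (by linarith)
  obtain ⟨k, hkN, hk⟩ : ∃ k, N ≤ k ∧ dist (x k) x₀ < r / 2 := by
    rw [Metric.tendsto_atTop] at hx₀
    obtain ⟨M, hM⟩ := hx₀ (r / 2) (by linarith)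
    exact ⟨max N M, le_max_left _ _, hM _ (le_max_right _ _)⟩
  obtain ⟨y, hyK, hy⟩ := hex2 (insert i (T k)) k
  refine ⟨y, ?_, ?_⟩
  · have h1 := hyK.2
    simp only [Set.mem_iInter] at h1
    exact h1 i (Finset.mem_insert_self _ _)
  · have h1 : ‖x k - y‖ < r / 2 := by
      refine hN _ (hKt_anti _ _ (hTt N k hkN) (hxK k)) _
        (hKt_anti _ _ ((hTt N k hkN).trans (Finset.subset_insert _ _)) hyK) ?_ ?_
      · linarith [hx k, hδa N k hkN]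
      · linarith [hδa N k hkN]
    rw [← dist_eq_norm] at h1
    calc dist x₀ y ≤ dist x₀ (x k) + dist (x k) y := dist_triangle _ _ _
      _ < r := by rw [dist_comm x₀ (x k)]; linarith

lemma lp_norm_rpow {n : ℕ} {p : ℝ} [Fact (1 ≤ ENNReal.ofReal p)] (hp : 1 < p) (μ : Measure (E n))
    (f : Lp (E n) (ENNReal.ofReal p) μ) : ‖f‖ ^ p = ∫ x, ‖f x‖ ^ p ∂μ := by
  have hp0 : 0 < p := by linarith
  have h0 : ENNReal.ofReal p ≠ 0 := by simpa using hp0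
  have h1 : 0 ≤ ∫ x, ‖f x‖ ^ p ∂μ := integral_nonneg fun x => Real.rpow_nonneg (norm_nonneg _) p
  rw [Lp.norm_def, (Lp.memLp f).eLpNorm_eq_integral_rpow_norm h0 ENNReal.ofReal_ne_top]
  rw [ENNReal.toReal_ofReal hp0.le, ENNReal.toReal_ofReal (Real.rpow_nonneg h1 _), ← Real.rpow_mul h1,
    inv_mul_cancel₀ hp0.ne', Real.rpow_one]

lemma lp_integrable {n : ℕ} {p : ℝ} [Fact (1 ≤ ENNReal.ofReal p)] (hp : 1 < p) (μ : Measure (E n))
    (f : Lp (E n) (ENNReal.ofReal p) μ) : Integrable (fun x => ‖f x‖ ^ p) μ := by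
  have hp0 : 0 < p := by linarith
  have h0 : ENNReal.ofReal p ≠ 0 := by simpa using hp0
  have h := (Lp.memLp f).integrable_norm_rpow h0 ENNReal.ofReal_ne_top
  rwa [ENNReal.toReal_ofReal hp0.le] at h

theorem uc_lp (hU : UciStatement) {n : ℕ} {p : ℝ} [Fact (1 ≤ ENNReal.ofReal p)] (hp : 1 < p)
    (μ : Measure (E n)) : UC (Lp (E n) (ENNReal.ofReal p) μ) p := by
  intro ε hε
  obtain ⟨C, hC0, hC⟩ := hU n p ε hp hε
  refine ⟨C, hC0, fun f g => ?_⟩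
  rw [lp_norm_rpow hp, lp_norm_rpow hp, lp_norm_rpow hp, lp_norm_rpow hp]
  have hF := lp_integrable hp μ f
  have hG := lp_integrable hp μ g
  have hM := lp_integrable hp μ ((1 / 2 : ℝ) • (f + g))
  have hS := lp_integrable hp μ (f - g)
  have hFG : Integrable (fun x => ‖f x‖ ^ p + ‖g x‖ ^ p) μ := hF.add hG
  have hH1 : Integrable (fun x => (‖f x‖ ^ p + ‖g x‖ ^ p) / 2) μ := hFG.div_const 2
  have hH : Integrable (fun x => (‖f x‖ ^ p + ‖g x‖ ^ p) / 2 -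
      ‖((1 / 2 : ℝ) • (f + g) : Lp (E n) (ENNReal.ofReal p) μ) x‖ ^ p) μ := hH1.sub hM
  have h1 : ∫ x, (ε * (‖f x‖ ^ p + ‖g x‖ ^ p) +
      C * ((‖f x‖ ^ p + ‖g x‖ ^ p) / 2 - ‖((1 / 2 : ℝ) • (f + g) : Lp (E n) (ENNReal.ofReal p) μ) x‖ ^ p)) ∂μ =
      ε * (∫ x, ‖f x‖ ^ p ∂μ + ∫ x, ‖g x‖ ^ p ∂μ) +
      C * ((∫ x, ‖f x‖ ^ p ∂μ + ∫ x, ‖g x‖ ^ p ∂μ) / 2 -
        ∫ x, ‖((1 / 2 : ℝ) • (f + g) : Lp (E n) (ENNReal.ofReal p) μ) x‖ ^ p ∂μ) := by
    rw [integral_add (hFG.const_mul ε) (hH.const_mul C), integral_const_mul, integral_const_mul,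
      integral_sub hH1 hM, integral_div, integral_add hF hG]
  rw [← h1]
  refine integral_mono_ae hS ((hFG.const_mul ε).add (hH.const_mul C)) ?_
  filter_upwards [Lp.coeFn_sub f g, Lp.coeFn_smul (1 / 2 : ℝ) (f + g), Lp.coeFn_add f g]
    with x h2 h3 h4
  simp only [Pi.sub_apply] at h2
  simp only [Pi.smul_apply, Pi.add_apply] at h3 h4
  rw [h4] at h3
  have h5 := hC (f x) (g x)
  rw [← h2, ← h3] at h5
  exact h5

theorem nest (hU : UciStatement) : NestStatement := by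
  intro n p _ μ K hp hc hconv hb
  exact fip_of_uc hp (uc_lp hU hp μ) K hc hconv hb

end Pool.Agent.Lib.MP_abd978_an.H98
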