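import Pool.Agent.Lib.MP_abd978_an.Interfaces

/-!
Project ABD, module UCI (helper98): pointwise uniform convexity of `‖x‖ ^ p`.
-/

set_option autoImplicit false

open MeasureTheory Metric Set Filter Topology ContDiff
open scoped Gradient RealInnerProductSpace

namespace Pool.Agent.Lib.MP_abd978_an.H98

/-- the bracket -/
noncomputable def br {n : ℕ} (p : ℝ) (x y : E n) : ℝ :=
  (‖x‖ ^ p + ‖y‖ ^ p) / 2 - ‖(1 / 2 : ℝ) • (x + y)‖ ^ p

lemma mid_le {p : ℝ} (hp : 1 < p) {a b : ℝ} (ha : 0 ≤ a) (hb : 0 ≤ b) :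
    ((a + b) / 2) ^ p ≤ (a ^ p + b ^ p) / 2 := by
  have h := (convexOn_rpow hp.le).2 (Set.mem_Ici.2 ha) (Set.mem_Ici.2 hb)
    (by norm_num : (0 : ℝ) ≤ 1 / 2) (by norm_num : (0 : ℝ) ≤ 1 / 2) (by norm_num)
  simp only [smul_eq_mul] at h
  calc ((a + b) / 2) ^ p = (1 / 2 * a + 1 / 2 * b) ^ p := by congr 1; ring
    _ ≤ 1 / 2 * a ^ p + 1 / 2 * b ^ p := h
    _ = (a ^ p + b ^ p) / 2 := by ring

lemma mid_lt {p : ℝ} (hp : 1 < p) {a b : ℝ} (ha : 0 ≤ a) (hb : 0 ≤ b) (hab : a ≠ b) :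
    ((a + b) / 2) ^ p < (a ^ p + b ^ p) / 2 := by
  have h := (strictConvexOn_rpow hp).2 (Set.mem_Ici.2 ha) (Set.mem_Ici.2 hb) hab
    (by norm_num : (0 : ℝ) < 1 / 2) (by norm_num : (0 : ℝ) < 1 / 2) (by norm_num)
  simp only [smul_eq_mul] at h
  calc ((a + b) / 2) ^ p = (1 / 2 * a + 1 / 2 * b) ^ p := by congr 1; ring
    _ < 1 / 2 * a ^ p + 1 / 2 * b ^ p := h
    _ = (a ^ p + b ^ p) / 2 := by ring

lemma norm_mid_le {n : ℕ} (x y : E n) : ‖(1 / 2 : ℝ) • (x + y)‖ ≤ (‖x‖ + ‖y‖) / 2 := by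
  rw [norm_smul]
  have := norm_add_le x y
  rw [Real.norm_of_nonneg (by norm_num : (0 : ℝ) ≤ 1 / 2)]
  linarith

lemma br_nonneg {n : ℕ} {p : ℝ} (hp : 1 < p) (x y : E n) : 0 ≤ br p x y := by
  unfold br
  have h1 : ‖(1 / 2 : ℝ) • (x + y)‖ ^ p ≤ ((‖x‖ + ‖y‖) / 2) ^ p :=
    Real.rpow_le_rpow (norm_nonneg _) (norm_mid_le x y) (by linarith)
  have h2 := mid_le hp (norm_nonneg x) (norm_nonneg y)
  linarith

lemma br_pos {n : ℕ} {p : ℝ} (hp : 1 < p) {x y : E n} (hxy : x ≠ y) : 0 < br p x y := by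
  unfold br
  by_cases h : ‖x‖ = ‖y‖
  · have h1 : ‖(1 / 2 : ℝ) • (x + y)‖ < ‖x‖ := (norm_midpoint_lt_iff h).2 hxy
    have h2 := Real.rpow_lt_rpow (norm_nonneg _) h1 (by linarith : 0 < p)
    rw [← h]
    linarith
  · have h1 : ‖(1 / 2 : ℝ) • (x + y)‖ ^ p ≤ ((‖x‖ + ‖y‖) / 2) ^ p :=
      Real.rpow_le_rpow (norm_nonneg _) (norm_mid_le x y) (by linarith)
    have h2 := mid_lt hp (norm_nonneg x) (norm_nonneg y) h
    linarith

lemma br_continuous {n : ℕ} {p : ℝ} (hp : 1 < p) : Continuous fun q : E n × E n => br p q.1 q.2 := by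
  unfold br
  have h1 : ∀ f : E n × E n → E n, Continuous f → Continuous fun q => ‖f q‖ ^ p := fun f hf =>
    hf.norm.rpow_const fun _ => Or.inr (by linarith)
  exact (((h1 _ continuous_fst).add (h1 _ continuous_snd)).div_const _).sub
    (h1 (fun q => (1 / 2 : ℝ) • (q.1 + q.2)) (by fun_prop))

lemma br_smul {n : ℕ} {p : ℝ} {t : ℝ} (ht : 0 ≤ t) (x y : E n) :
    br p (t • x) (t • y) = t ^ p * br p x y := by
  unfold br
  have h1 : ∀ z : E n, ‖t • z‖ ^ p = t ^ p * ‖z‖ ^ p := fun z => by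
    rw [norm_smul, Real.norm_of_nonneg ht, Real.mul_rpow ht (norm_nonneg _)]
  have h2 : (1 / 2 : ℝ) • (t • x + t • y) = t • ((1 / 2 : ℝ) • (x + y)) := by
    rw [← smul_add, smul_comm]
  rw [h2, h1, h1, h1]
  ring

theorem uci : UciStatement := by
  intro n p ε hp hε
  have hp0 : 0 < p := by linarith
  -- the compact set
  let S : Set (E n × E n) := {q | ‖q.1‖ ^ p + ‖q.2‖ ^ p = 1 ∧ ε ≤ ‖q.1 - q.2‖ ^ p}
  have hcn : ∀ f : E n × E n → E n, Continuous f → Continuous fun q => ‖f q‖ ^ p := fun f hf =>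
    hf.norm.rpow_const fun _ => Or.inr (by linarith)
  have hSc : IsClosed S := by
    refine IsClosed.inter ?_ ?_
    · exact isClosed_eq ((hcn _ continuous_fst).add (hcn _ continuous_snd)) continuous_const
    · exact isClosed_le continuous_const (hcn _ (continuous_fst.sub continuous_snd))
  have hle1 : ∀ a b : ℝ, 0 ≤ a → 0 ≤ b → a ^ p + b ^ p = 1 → a ≤ 1 := by
    intro a b ha hb hab
    by_contra hcon
    push Not at hcon
    have h1 : 1 < a ^ p := Real.one_lt_rpow hcon hp0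
    have h2 : 0 ≤ b ^ p := Real.rpow_nonneg hb p
    linarith
  have hSb : S ⊆ closedBall (0 : E n) 1 ×ˢ closedBall (0 : E n) 1 := by
    rintro ⟨x, y⟩ ⟨h1, _⟩
    simp only at h1
    refine ⟨?_, ?_⟩
    · rw [mem_closedBall_zero_iff]
      exact hle1 _ _ (norm_nonneg _) (norm_nonneg _) h1
    · rw [mem_closedBall_zero_iff]
      rw [add_comm] at h1
      exact hle1 _ _ (norm_nonneg _) (norm_nonneg _) h1
  have hSk : IsCompact S :=
    ((isCompact_closedBall _ _).prod (isCompact_closedBall _ _)).of_isClosed_subset hSc hSb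
  obtain ⟨δ, hδ, hδS⟩ : ∃ δ : ℝ, 0 < δ ∧ ∀ q ∈ S, δ ≤ br p q.1 q.2 := by
    rcases S.eq_empty_or_nonempty with h | h
    · exact ⟨1, one_pos, by rw [h]; simp⟩
    · obtain ⟨q, hq, hmin⟩ := hSk.exists_isMinOn h (br_continuous hp).continuousOn
      refine ⟨br p q.1 q.2, br_pos hp ?_, fun q' hq' => hmin hq'⟩
      intro heq
      have h1 := hq.2
      rw [heq, sub_self, norm_zero, Real.zero_rpow hp0.ne'] at h1
      linarith
  refine ⟨2 ^ p / δ, by positivity, fun x y => ?_⟩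
  change ‖x - y‖ ^ p ≤ ε * (‖x‖ ^ p + ‖y‖ ^ p) + 2 ^ p / δ * br p x y
  -- the normalised inequality
  have key : ∀ x y : E n, ‖x‖ ^ p + ‖y‖ ^ p = 1 → ‖x - y‖ ^ p ≤ ε + 2 ^ p / δ * br p x y := by
    intro x y hxy
    by_cases h : ε ≤ ‖x - y‖ ^ p
    · have h1 := hδS (x, y) ⟨hxy, h⟩
      simp only at h1
      have hx : ‖x‖ ≤ 1 := hle1 _ _ (norm_nonneg _) (norm_nonneg _) hxy
      have hy : ‖y‖ ≤ 1 := hle1 _ ‖x‖ (norm_nonneg _) (norm_nonneg _) (by rw [add_comm]; exact hxy)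
      have h2 : ‖x - y‖ ≤ 2 := (norm_sub_le x y).trans (by linarith)
      have h3 : ‖x - y‖ ^ p ≤ 2 ^ p := Real.rpow_le_rpow (norm_nonneg _) h2 hp0.le
      have h4 : (2 : ℝ) ^ p ≤ 2 ^ p / δ * br p x y := by
        rw [div_mul_eq_mul_div, le_div_iff₀ hδ]
        exact mul_le_mul_of_nonneg_left h1 (by positivity)
      linarith
    · push Not at h
      have h5 : 0 ≤ 2 ^ p / δ * br p x y := mul_nonneg (by positivity) (br_nonneg hp x y)
      linarith
  set s := ‖x‖ ^ p + ‖y‖ ^ p with hs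
  have hx0 : 0 ≤ ‖x‖ ^ p := Real.rpow_nonneg (norm_nonneg _) p
  have hy0 : 0 ≤ ‖y‖ ^ p := Real.rpow_nonneg (norm_nonneg _) p
  rcases (add_nonneg hx0 hy0).lt_or_eq with h | h
  · rw [← hs] at h
    set t := s ^ (-(1 / p)) with ht
    have ht0 : 0 < t := Real.rpow_pos_of_pos h _
    have htp : t ^ p = s⁻¹ := by
      rw [ht, ← Real.rpow_mul h.le]
      have : -(1 / p) * p = -1 := by field_simp
      rw [this, Real.rpow_neg_one]
    have hn : ∀ z : E n, ‖t • z‖ ^ p = s⁻¹ * ‖z‖ ^ p := fun z => by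
      rw [norm_smul, Real.norm_of_nonneg ht0.le, Real.mul_rpow ht0.le (norm_nonneg _), htp]
    have h1 := key (t • x) (t • y) (by
      rw [hn, hn, ← mul_add, ← hs]
      exact inv_mul_cancel₀ h.ne')
    rw [← smul_sub, hn, br_smul ht0.le, htp] at h1
    have h2 := mul_le_mul_of_nonneg_left h1 h.le
    have h3 : s * (s⁻¹ * ‖x - y‖ ^ p) = ‖x - y‖ ^ p := by
      rw [← mul_assoc, mul_inv_cancel₀ h.ne', one_mul]
    have h4 : s * (ε + 2 ^ p / δ * (s⁻¹ * br p x y)) = ε * s + 2 ^ p / δ * br p x y := by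
      rw [mul_add]
      have : s * (2 ^ p / δ * (s⁻¹ * br p x y)) = (s * s⁻¹) * (2 ^ p / δ * br p x y) := by ring
      rw [this, mul_inv_cancel₀ h.ne']; ring
    rw [h3, h4] at h2
    exact h2
  · have hx : x = 0 := by
      by_contra hcon
      have : 0 < ‖x‖ ^ p := Real.rpow_pos_of_pos (norm_pos_iff.2 hcon) p
      linarith
    have hy : y = 0 := by
      by_contra hcon
      have : 0 < ‖y‖ ^ p := Real.rpow_pos_of_pos (norm_pos_iff.2 hcon) p
      linarith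
    have h5 : 0 ≤ 2 ^ p / δ * br p x y := mul_nonneg (by positivity) (br_nonneg hp x y)
    have h6 : 0 ≤ ε * s := mul_nonneg hε.le (by rw [hs]; positivity)
    have h7 : ‖x - y‖ ^ p = 0 := by
      rw [hx, hy, sub_self, norm_zero, Real.zero_rpow hp0.ne']
    linarith

end Pool.Agent.Lib.MP_abd978_an.H98
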